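import Mathlib
import Pool.Agent.Lib.MP_4b6a63_an.Hyper

/-!
# Spaces containing `c₀` are Lipschitz homeomorphic to their hyperplanes

`ZeroAtInftyContinuousMap ℕ ℝ` is the Banach space `c₀` of real null sequences with the
supremum norm. The hypothesis says that the normed space `X` contains an isomorphic copy of `c₀`.
-/

set_option autoImplicit false

universe u

namespace Pool.Agent.Results.MP_4b6a63_an.ContainsC0

/-- Every real normed space which contains an isomorphic copy of `c₀` is Lipschitz homeomorphic
to each of its closed linear subspaces of codimension one. -/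
theorem result :
    ∀ (X : Type u) [NormedAddCommGroup X] [NormedSpace ℝ X],
      (∃ (J : ZeroAtInftyContinuousMap ℕ ℝ →L[ℝ] X) (c : ℝ), 0 < c ∧ ∀ v, c * ‖v‖ ≤ ‖J v‖) →
      ∀ H : Submodule ℝ X, IsClosed (H : Set X) →
        Module.finrank ℝ (X ⧸ H) = 1 →
        ∃ (e : X ≃ H) (C : NNReal), LipschitzWith C e ∧ LipschitzWith C e.symm := by
  intro X _ _ ⟨J, c, hc, hJ⟩ H hH h1
  exact Pool.Agent.Lib.MP_4b6a63_an.hyperplane J c hc hJ H hH h1

end Pool.Agent.Results.MP_4b6a63_an.ContainsC0
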